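import Mathlib
import Pool.Agent.Results.MP_44afb3_an.CohenAlgebra

/-!
# Obstructions to reflexive representations of complete Boolean algebras
-/

set_option autoImplicit false

namespace Y280.CB

open Filter Topology
open Pool.Agent.Results.MP_44afb3_an.CohenAlgebra

universe u v w

section Hilbert

variable {K : Type v} [NormedAddCommGroup K] [InnerProductSpace ℂ K] [CompleteSpace K]

lemma proj_orth (M : Submodule ℂ K) (x : K) :
    Mᗮ.starProjection x = x - Mᗮᗮ.starProjection x := by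
  rw [Submodule.starProjection_orthogonal Mᗮ]
  simp

/-- continuity along increasing sequences -/
lemma tendsto_mono (M : ℕ → Submodule ℂ K) (hM : Monotone M) (N : Submodule ℂ K)
    (hN : (⨆ k, M k).topologicalClosure = N) (x : K) :
    Tendsto (fun k => (M k)ᗮ.starProjection x) atTop (𝓝 (Nᗮ.starProjection x)) := by
  subst hN
  have h1 := tendsto_antitone (fun k => (M k)ᗮ) (fun k => Submodule.isClosed_orthogonal _)
    (fun i j hij => Submodule.orthogonal_le (hM hij)) x
  have h2 : (⨅ k, (M k)ᗮ) = ((⨆ k, M k).topologicalClosure)ᗮ := by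
    rw [Submodule.orthogonal_closure, Submodule.iInf_orthogonal]
  rw [h2] at h1
  have h3 : ∀ k, (M k)ᗮ.starProjection x = x - (M k)ᗮᗮ.starProjection x := fun k => proj_orth _ x
  simp_rw [h3]
  rw [proj_orth]
  exact tendsto_const_nhds.sub h1

lemma proj_eq_zero_iff (M : Submodule ℂ K) (hM : IsClosed (M : Set K)) (x : K) :
    Mᗮ.starProjection x = 0 ↔ x ∈ M := by
  rw [Submodule.starProjection_apply_eq_zero_iff, Submodule.orthogonal_orthogonal_eq_closure,
    hM.submodule_topologicalClosure_eq]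

/-- the distance function of a vector is monotone -/
lemma proj_anti {M N : Submodule ℂ K} (h : M ≤ N) (x : K) :
    ‖Nᗮ.starProjection x‖ ≤ ‖Mᗮ.starProjection x‖ := by
  have h1 : Nᗮ.starProjection x = Nᗮ.starProjection (Mᗮ.starProjection x) := by
    rw [proj_orth M x, map_sub]
    have : Nᗮ.starProjection (Mᗮᗮ.starProjection x) = 0 := by
      rw [Submodule.starProjection_apply_eq_zero_iff]
      exact Submodule.orthogonal_le (Submodule.orthogonal_le h) (Submodule.starProjection_apply_mem _ _)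
    rw [this, sub_zero]
  rw [h1]
  exact Submodule.norm_starProjection_apply_le _ _

end Hilbert

section Core

variable {K : Type v} [NormedAddCommGroup K] [InnerProductSpace ℂ K] [CompleteSpace K]
variable {B : Type u} [CompleteBooleanAlgebra B]

/-- The basic estimate: along suitable columns of the matrix the vector stays away from the
subspaces. -/
lemma fusion (φ : B → Submodule ℂ K) (hcl : ∀ b, IsClosed (φ b : Set K)) (hmono : Monotone φ)
    (hbot : φ ⊥ = ⊥)
    (hinf : ∀ e : ℕ → B, Antitone e → ⨅ k, φ (e k) = φ (⨅ k, e k))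
    (hsup : ∀ e : ℕ → B, Monotone e → (⨆ k, φ (e k)).topologicalClosure = φ (⨆ k, e k))
    (e : ℕ → ℕ → B) (he : ∀ n, Antitone (e n)) (h0 : ∀ n, ⨅ k, e n k = ⊥) (x : K)
    (r : ℝ) (hr : r < ‖x‖) :
    ∃ f : ℕ → ℕ, r ≤ ‖(φ (⨆ n, e n (f n)))ᗮ.starProjection x‖ := by
  set g : B → ℝ := fun b => ‖(φ b)ᗮ.starProjection x‖ with hg
  have hg0 : r < g ⊥ := by
    have : g ⊥ = ‖x‖ := by
      rw [hg]
      simp only
      rw [Submodule.norm_starProjection_apply]
      rw [hbot, Submodule.bot_orthogonal_eq_top]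
      trivial
    rw [this]; exact hr
  have step : ∀ (n : ℕ) (c : {c : B // r < g c}), ∃ k : ℕ, r < g ((c : B) ⊔ e n k) := by
    rintro n ⟨c, hc⟩
    have hanti : Antitone fun k => c ⊔ e n k := fun i j hij => sup_le_sup_left (he n hij) c
    have hlim : ⨅ k, (c ⊔ e n k) = c := by
      rw [← sup_iInf_eq, h0 n, sup_bot_eq]
    have h1 := tendsto_antitone (fun k => φ (c ⊔ e n k)) (fun k => hcl _)
      (fun i j hij => hmono (hanti hij)) x
    rw [hinf _ hanti, hlim] at h1
    have h2 : Tendsto (fun k => g (c ⊔ e n k)) atTop (𝓝 (g c)) := h1.norm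
    exact (h2.eventually (lt_mem_nhds hc)).exists
  choose k hk using step
  let c : ℕ → {c : B // r < g c} :=
    fun n => Nat.rec ⟨⊥, hg0⟩ (fun n c => ⟨(c : B) ⊔ e n (k n c), hk n c⟩) n
  have hc1 : ∀ n, (c (n + 1)).1 = (c n).1 ⊔ e n (k n (c n)) := fun n => rfl
  have hcm : Monotone fun n => (c n).1 :=
    monotone_nat_of_le_succ fun n => by rw [hc1]; exact le_sup_left
  refine ⟨fun n => k n (c n), ?_⟩
  have hsupc : ⨆ n, (c n).1 = ⨆ n, e n (k n (c n)) := by
    apply le_antisymm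
    · apply iSup_le
      intro n
      induction n with
      | zero => exact bot_le
      | succ n ih =>
        rw [hc1]
        exact sup_le ih (le_iSup (fun n => e n (k n (c n))) n)
    · apply iSup_le
      intro n
      refine le_trans ?_ (le_iSup (fun n => (c n).1) (n + 1))
      rw [hc1]
      exact le_sup_right
  have h1 := tendsto_mono (fun n => φ (c n).1) (fun i j hij => hmono (hcm hij))
    (φ (⨆ n, e n (k n (c n)))) (by rw [hsup _ hcm, hsupc]) x
  exact ge_of_tendsto' h1.norm fun n => (c n).2.le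

/-- Maps from a complete Boolean algebra onto a reflexive family. -/
structure Rep (φ : B → Submodule ℂ K) (b₀ : B) : Prop where
  closed : ∀ b, IsClosed (φ b : Set K)
  mono : Monotone φ
  bot : φ ⊥ = ⊥
  inf : ∀ T : Set B, ⨅ c ∈ T, φ c = φ (sInf T)
  sup : ∀ e : ℕ → B, Monotone e → (⨆ k, φ (e k)).topologicalClosure = φ (⨆ k, e k)
  inj : ∀ b, φ b = ⊥ → Disjoint b b₀

lemma Rep.inf' {φ : B → Submodule ℂ K} {b₀ : B} (h : Rep φ b₀) (e : ℕ → B) :
    ⨅ k, φ (e k) = φ (⨅ k, e k) := by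
  have := h.inf (Set.range e)
  rw [iInf_range] at this
  exact this

/-- weak distributivity -/
lemma Rep.weakly_distributive {φ : B → Submodule ℂ K} {b₀ : B} (h : Rep φ b₀)
    (e : ℕ → ℕ → B) (he : ∀ n, Antitone (e n)) (h0 : ∀ n, ⨅ k, e n k = ⊥) (w : B) (hw : w ≤ b₀)
    (hwe : ∀ f : ℕ → ℕ, w ≤ ⨆ n, e n (f n)) : w = ⊥ := by
  by_contra hne
  have h1 : φ w ≠ ⊥ := by
    intro h2
    have := h.inj w h2
    exact hne (this.eq_bot_of_le hw)
  obtain ⟨x, hx, hx0⟩ := Submodule.exists_mem_ne_zero_of_ne_bot h1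
  obtain ⟨f, hf⟩ := fusion φ h.closed h.mono h.bot (fun e _ => h.inf' e) h.sup e he h0 x (‖x‖ / 2)
    (by have := norm_pos_iff.2 hx0; linarith)
  have h2 : (φ (⨆ n, e n (f n)))ᗮ.starProjection x = 0 :=
    (proj_eq_zero_iff _ (h.closed _) x).2 (h.mono (hwe f) hx)
  rw [h2, norm_zero] at hf
  have := norm_pos_iff.2 hx0
  linarith

/-- the functional of a vector -/
lemma Rep.functional {φ : B → Submodule ℂ K} {b₀ : B} (h : Rep φ b₀) (b : B) (hb : b ≠ ⊥)
    (hbb : b ≤ b₀) :
    ∃ s : B, s ≤ b ∧ s ≠ ⊥ ∧ ∃ m : B → ℝ, Monotone m ∧ (∀ a, 0 ≤ m a) ∧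
      (∀ a, m a = 0 ↔ Disjoint a s) ∧
      (∀ a : ℕ → B, Monotone a → Tendsto (fun n => m (a n)) atTop (𝓝 (m (⨆ n, a n)))) ∧
      (∀ a : ℕ → B, Antitone a → Tendsto (fun n => m (a n)) atTop (𝓝 (m (⨅ n, a n)))) := by
  have h1 : φ b ≠ ⊥ := by
    intro h2
    exact hb ((h.inj b h2).eq_bot_of_le hbb)
  obtain ⟨x, hx, hx0⟩ := Submodule.exists_mem_ne_zero_of_ne_bot h1
  set s : B := sInf {c | x ∈ φ c} with hs
  have hxs : x ∈ φ s := by
    rw [hs, ← h.inf]
    simp
  have hsle : ∀ c, s ≤ c ↔ x ∈ φ c := fun c => ⟨fun h' => h.mono h' hxs, fun h' => sInf_le h'⟩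
  refine ⟨s, (hsle b).2 hx, ?_, fun a => ‖(φ aᶜ)ᗮ.starProjection x‖, ?_, fun a => norm_nonneg _,
    ?_, ?_, ?_⟩
  · intro h2
    rw [h2, h.bot] at hxs
    exact hx0 ((Submodule.mem_bot ℂ).1 hxs)
  · intro a c hac
    exact proj_anti (h.mono (compl_le_compl hac)) x
  · intro a
    rw [norm_eq_zero, proj_eq_zero_iff _ (h.closed _), ← hsle, disjoint_comm,
      ← le_compl_iff_disjoint_right]
  · intro a ha
    have h2 := tendsto_antitone (fun n => φ (a n)ᶜ) (fun k => h.closed _)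
      (fun i j hij => h.mono (compl_le_compl (ha hij))) x
    rw [h.inf' (fun n => (a n)ᶜ), ← compl_iSup] at h2
    exact h2.norm
  · intro a ha
    have hm : Monotone fun n => (a n)ᶜ := fun i j hij => compl_le_compl (ha hij)
    have h2 := tendsto_mono (fun n => φ (a n)ᶜ) (fun i j hij => h.mono (hm hij))
      (φ (⨅ n, a n)ᶜ) (by rw [h.sup _ hm, ← compl_iInf]) x
    exact h2.norm

/-- an order continuous functional forces the countable chain condition on its support -/
lemma ccc_of_functional (s : B) (m : B → ℝ) (hm : Monotone m) (hm0 : ∀ a, 0 ≤ m a)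
    (hms : ∀ a, m a = 0 ↔ Disjoint a s)
    (hanti : ∀ a : ℕ → B, Antitone a → Tendsto (fun n => m (a n)) atTop (𝓝 (m (⨅ n, a n))))
    (A : Set B) (hA : ∀ a ∈ A, a ≠ ⊥ ∧ a ≤ s) (hd : A.PairwiseDisjoint id) : A.Countable := by
  have hpos : ∀ a ∈ A, 0 < m a := by
    intro a ha
    refine lt_of_le_of_ne (hm0 a) fun h => ?_
    exact (hA a ha).1 (((hms a).1 h.symm).eq_bot_of_le (hA a ha).2)
  have hfin : ∀ N : ℕ, {a ∈ A | 1 / ((N : ℝ) + 1) ≤ m a}.Finite := by
    intro N
    by_contra hinf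
    have hinf' : {a ∈ A | 1 / ((N : ℝ) + 1) ≤ m a}.Infinite := hinf
    let c : ℕ ↪ {a ∈ A | 1 / ((N : ℝ) + 1) ≤ m a} := hinf'.natEmbedding
    let a : ℕ → B := fun n => (c n : B)
    have haA : ∀ n, a n ∈ A := fun n => (c n).2.1
    have ham : ∀ n, 1 / ((N : ℝ) + 1) ≤ m (a n) := fun n => (c n).2.2
    have hadis : ∀ i j, i ≠ j → Disjoint (a i) (a j) := by
      intro i j hij
      refine hd (haA i) (haA j) fun h => hij (c.injective (Subtype.ext h))
    let t : ℕ → B := fun n => ⨆ k, ⨆ (_ : n ≤ k), a k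
    have ht : Antitone t := by
      intro i j hij
      apply iSup_le
      intro k
      apply iSup_le
      intro hk
      exact le_iSup_of_le k (le_iSup_of_le (hij.trans hk) le_rfl)
    have ht0 : ⨅ n, t n = ⊥ := by
      have h1 : ∀ k, Disjoint (⨅ n, t n) (a k) := by
        intro k
        refine Disjoint.mono_left (iInf_le t (k + 1)) ?_
        change Disjoint (⨆ l, ⨆ (_ : k + 1 ≤ l), a l) (a k)
        rw [iSup_disjoint_iff]
        intro l
        rw [iSup_disjoint_iff]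
        intro hl
        exact hadis l k (by omega)
      have h2 : Disjoint (⨅ n, t n) (t 0) := by
        change Disjoint (⨅ n, t n) (⨆ l, ⨆ (_ : 0 ≤ l), a l)
        rw [disjoint_iSup_iff]
        intro l
        rw [disjoint_iSup_iff]
        intro _
        exact h1 l
      exact h2.eq_bot_of_le (iInf_le t 0)
    have h1 := hanti t ht
    rw [ht0, (hms ⊥).2 disjoint_bot_left] at h1
    have h2 : ∀ n, 1 / ((N : ℝ) + 1) ≤ m (t n) := fun n =>
      (ham n).trans (hm (le_iSup_of_le n (le_iSup_of_le le_rfl le_rfl)))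
    have h3 := ge_of_tendsto' h1 h2
    have h4 : 0 < 1 / ((N : ℝ) + 1) := by positivity
    linarith
  have hU : A ⊆ ⋃ N : ℕ, {a ∈ A | 1 / ((N : ℝ) + 1) ≤ m a} := by
    intro a ha
    obtain ⟨N, hN⟩ := exists_nat_one_div_lt (hpos a ha)
    exact Set.mem_iUnion.2 ⟨N, ha, hN.le⟩
  exact (Set.countable_iUnion fun N => (hfin N).countable).mono hU

/-- The map defined by an order isomorphism of a principal ideal onto a reflexive family. -/
lemma rep_of_orderIso (b₀ : B) (G : Set (Submodule ℂ K)) (hcl : ∀ M ∈ G, IsClosed (M : Set K))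
    (hG : IsReflexiveFamily G) (ψ : Set.Iic b₀ ≃o G) :
    Rep (fun a => (ψ ⟨a ⊓ b₀, inf_le_right⟩ : Submodule ℂ K)) b₀ := by
  have hsurj : ∀ M ∈ G, ∃ z : Set.Iic b₀, (ψ z : Submodule ℂ K) = M := by
    intro M hM
    exact ⟨ψ.symm ⟨M, hM⟩, by rw [ψ.apply_symm_apply]⟩
  have hle : ∀ z z' : Set.Iic b₀, (ψ z : Submodule ℂ K) ≤ ψ z' ↔ (z : B) ≤ z' := by
    intro z z'
    have := ψ.le_iff_le (x := z) (y := z')
    exact this
  have hbotG : (⊥ : Submodule ℂ K) ∈ G := by
    apply hG ⊥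
    · exact isClosed_singleton
    · intro T _ x hx
      rw [Submodule.mem_bot] at hx ⊢
      rw [hx, map_zero]
  refine ⟨fun b => hcl _ (ψ _).2, ?_, ?_, ?_, ?_, ?_⟩
  · intro a c hac
    exact (hle _ _).2 (inf_le_inf_right b₀ hac)
  · obtain ⟨z, hz⟩ := hsurj ⊥ hbotG
    rw [eq_bot_iff, ← hz, hle]
    exact inf_le_left.trans bot_le
  · intro T
    have hM : (⨅ c ∈ T, (ψ ⟨c ⊓ b₀, inf_le_right⟩ : Submodule ℂ K)) ∈ G := by
      apply hG
      · rw [Submodule.coe_iInf]
        apply isClosed_iInter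
        intro c
        rw [Submodule.coe_iInf]
        exact isClosed_iInter fun _ => hcl _ (ψ _).2
      · intro S hS x hx
        simp only [Submodule.mem_iInf] at hx ⊢
        exact fun c hc => hS _ (ψ _).2 x (hx c hc)
    obtain ⟨z, hz⟩ := hsurj _ hM
    apply le_antisymm
    · rw [← hz, hle]
      refine le_inf (le_sInf fun c hc => ?_) z.2
      have h1 : (ψ z : Submodule ℂ K) ≤ ψ ⟨c ⊓ b₀, inf_le_right⟩ := by
        rw [hz]
        exact iInf₂_le c hc
      exact ((hle _ _).1 h1).trans inf_le_left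
    · refine le_iInf₂ fun c hc => ?_
      exact (hle _ _).2 (inf_le_inf_right b₀ (sInf_le hc))
  · intro e he
    have hM : (⨆ k, (ψ ⟨e k ⊓ b₀, inf_le_right⟩ : Submodule ℂ K)).topologicalClosure ∈ G :=
      reflexive_iSup hG _ fun k => (ψ _).2
    obtain ⟨z, hz⟩ := hsurj _ hM
    apply le_antisymm
    · refine Submodule.topologicalClosure_minimal _ (iSup_le fun k => ?_) (hcl _ (ψ _).2)
      exact (hle _ _).2 (inf_le_inf_right b₀ (le_iSup e k))
    · rw [← hz, hle]
      change (⨆ k, e k) ⊓ b₀ ≤ z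
      rw [iSup_inf_eq]
      refine iSup_le fun k => ?_
      have h1 : (ψ ⟨e k ⊓ b₀, inf_le_right⟩ : Submodule ℂ K) ≤ ψ z := by
        rw [hz]
        exact (le_iSup (fun k => (ψ ⟨e k ⊓ b₀, inf_le_right⟩ : Submodule ℂ K)) k).trans
          (Submodule.le_topologicalClosure _)
      exact (hle _ _).1 h1
  · intro b hb
    have h1 : (ψ ⟨b ⊓ b₀, inf_le_right⟩ : Submodule ℂ K) ≤ ψ ⟨⊥, bot_le⟩ := by
      have h2 : (ψ ⟨b ⊓ b₀, inf_le_right⟩ : Submodule ℂ K) = ⊥ := hb
      rw [h2]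
      exact bot_le
    have h3 := (hle _ _).1 h1
    exact disjoint_iff_inf_le.2 h3

end Core

end Y280.CB
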