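import Mathlib
import Pool.Agent.Results.MP_44afb3_an.CohenAlgebra
import Pool.Agent.Y280.CB.Core

/-!
# Boolean algebras of subspaces of finite dimensional spaces are reflexive; lattice isomorphisms
-/

set_option autoImplicit false

namespace Y280.CB

open Filter Topology
open Pool.Agent.Results.MP_44afb3_an.CohenAlgebra

universe u v w

section Fin

variable {H : Type v} [NormedAddCommGroup H] [InnerProductSpace ℂ H] [FiniteDimensional ℂ H]

omit [FiniteDimensional ℂ H] in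
lemma isCompl_of (A A' : Submodule ℂ H) (h1 : A ⊓ A' = ⊥) (h2 : A ⊔ A' = ⊤) : IsCompl A A' :=
  ⟨disjoint_iff.2 h1, codisjoint_iff.2 h2⟩

/-- the projection onto a member along a complement -/
lemma exists_proj (F : Set (Submodule ℂ H))
    (hdis : ∀ A ∈ F, ∀ B ∈ F, ∀ C ∈ F, A ⊓ (B ⊔ C) = (A ⊓ B) ⊔ (A ⊓ C))
    (A A' : Submodule ℂ H) (hA : A ∈ F) (hA' : A' ∈ F) (h1 : A ⊓ A' = ⊥) (h2 : A ⊔ A' = ⊤) :
    ∃ P : H →L[ℂ] H, (∀ x, P x ∈ A) ∧ (∀ x, x - P x ∈ A') ∧ (∀ x ∈ A, P x = x) ∧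
      ∀ C ∈ F, ∀ x ∈ C, P x ∈ C := by
  have hc := isCompl_of A A' h1 h2
  let P₀ : H →ₗ[ℂ] H := A.subtype ∘ₗ A.projectionOnto A' hc
  have hP1 : ∀ x, P₀ x ∈ A := fun x => (A.projectionOnto A' hc x).2
  have hPA : ∀ x ∈ A, P₀ x = x := by
    intro x hx
    have := Submodule.projectionOnto_apply_left hc ⟨x, hx⟩
    change ((A.projectionOnto A' hc x : A) : H) = x
    rw [this]
  have hPA' : ∀ x ∈ A', P₀ x = 0 := by
    intro x hx
    have := (Submodule.projectionOnto_apply_eq_zero_iff hc (x := x)).2 hx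
    change ((A.projectionOnto A' hc x : A) : H) = 0
    rw [this]
    rfl
  have hsplit : ∀ x : H, ∃ y ∈ A, ∃ z ∈ A', y + z = x := by
    intro x
    have : x ∈ A ⊔ A' := by rw [h2]; trivial
    exact Submodule.mem_sup.1 this
  refine ⟨LinearMap.toContinuousLinearMap P₀, hP1, ?_, hPA, ?_⟩
  · intro x
    obtain ⟨y, hy, z, hz, rfl⟩ := hsplit x
    change (y + z) - P₀ (y + z) ∈ A'
    rw [map_add, hPA y hy, hPA' z hz]
    simpa using hz
  · intro C hC x hx
    have h3 : x ∈ (C ⊓ A) ⊔ (C ⊓ A') := by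
      rw [← hdis C hC A hA A' hA', h2]
      exact ⟨hx, trivial⟩
    obtain ⟨y, hy, z, hz, rfl⟩ := Submodule.mem_sup.1 h3
    change P₀ (y + z) ∈ C
    rw [map_add, hPA y hy.2, hPA' z hz.2, add_zero]
    exact hy.1

/-- **Finite dimension.** Every Boolean algebra of subspaces is reflexive. -/
theorem fin_reflexive (F : Set (Submodule ℂ H)) (hF : IsBooleanAlgebraOfSubspaces F) :
    IsReflexiveFamily F := by
  have hcl : ∀ N : Submodule ℂ H, N.topologicalClosure = N := fun N =>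
    (Submodule.closed_of_finiteDimensional N).submodule_topologicalClosure_eq
  have hsup : ∀ A ∈ F, ∀ B ∈ F, A ⊔ B ∈ F := by
    intro A hA B hB
    have := hF.sup_mem A hA B hB
    rwa [hcl] at this
  have hdis : ∀ A ∈ F, ∀ B ∈ F, ∀ C ∈ F, A ⊓ (B ⊔ C) = (A ⊓ B) ⊔ (A ⊓ C) := by
    intro A hA B hB C hC
    have := hF.distrib A hA B hB C hC
    rwa [hcl, hcl] at this
  have hcomp : ∀ A ∈ F, ∃ B ∈ F, A ⊓ B = ⊥ ∧ A ⊔ B = ⊤ := by
    intro A hA
    obtain ⟨B, hB, h1, h2⟩ := hF.compl A hA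
    rw [hcl] at h2
    exact ⟨B, hB, h1, h2⟩
  intro M _ hM
  have key : ∀ n : ℕ, ∀ A ∈ F, Module.finrank ℂ A = n → M ⊓ A ∈ F := by
    intro n
    induction n using Nat.strong_induction_on with
    | _ n ih =>
    intro A hA hn
    by_cases hC : ∃ C ∈ F, C < A ∧ C ≠ ⊥
    · obtain ⟨C, hCF, hCA, hC0⟩ := hC
      obtain ⟨C', hC'F, h1, h2⟩ := hcomp C hCF
      obtain ⟨P, hP1, hP2, hP3, hP4⟩ := exists_proj F hdis C C' hCF hC'F h1 h2
      have hlt : A ⊓ C' < A := by
        refine lt_of_le_of_ne inf_le_left fun h => hC0 ?_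
        have h3 : A ≤ C' := inf_eq_left.1 h
        rw [eq_bot_iff, ← h1]
        exact le_inf le_rfl (hCA.le.trans h3)
      have i1 := ih _ (by rw [← hn]; exact Submodule.finrank_lt_finrank_of_lt hCA) C hCF rfl
      have i2 := ih _ (by rw [← hn]; exact Submodule.finrank_lt_finrank_of_lt hlt) (A ⊓ C')
        (hF.inf_mem A hA C' hC'F) rfl
      have h3 : M ⊓ A = (M ⊓ C) ⊔ (M ⊓ (A ⊓ C')) := by
        apply le_antisymm
        · rintro x ⟨hxM, hxA⟩
          have h4 : P x ∈ M ⊓ C := ⟨hM P hP4 x hxM, hP1 x⟩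
          have h5 : x - P x ∈ M ⊓ (A ⊓ C') :=
            ⟨M.sub_mem hxM h4.1, A.sub_mem hxA (hCA.le h4.2), hP2 x⟩
          have h6 : P x + (x - P x) ∈ (M ⊓ C) ⊔ (M ⊓ (A ⊓ C')) := Submodule.add_mem_sup h4 h5
          rwa [add_sub_cancel] at h6
        · exact sup_le (inf_le_inf_left M hCA.le) (inf_le_inf_left M inf_le_left)
      rw [h3]
      exact hsup _ i1 _ i2
    · push Not at hC
      by_cases h0 : M ⊓ A = ⊥
      · rw [h0]
        exact hF.bot_mem
      by_cases h1 : A ≤ M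
      · rw [inf_eq_right.2 h1]
        exact hA
      exfalso
      obtain ⟨x, hx, hx0⟩ := Submodule.exists_mem_ne_zero_of_ne_bot h0
      obtain ⟨y, hyA, hyM⟩ := SetLike.not_le_iff_exists.1 h1
      obtain ⟨A', hA'F, h2, h3⟩ := hcomp A hA
      obtain ⟨P, hP1, hP2, hP3, hP4⟩ := exists_proj F hdis A A' hA hA'F h2 h3
      let T : H →L[ℂ] H := ((innerSL ℂ x : H →L[ℂ] ℂ).smulRight y) ∘L P
      have hT : ∀ h, T h = (inner ℂ x (P h) : ℂ) • y := fun h => rfl
      have hTF : ∀ C ∈ F, ∀ h ∈ C, T h ∈ C := by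
        intro C hCF h hh
        by_cases hAC : A ≤ C
        · rw [hT]
          exact C.smul_mem _ (hAC hyA)
        · have h4 : C ⊓ A = ⊥ := by
            by_contra h5
            have h6 : C ⊓ A ∈ F := hF.inf_mem C hCF A hA
            have h7 : ¬ C ⊓ A < A := fun h' => h5 (hC _ h6 h')
            have h8 : C ⊓ A = A := by
              by_contra h9
              exact h7 (lt_of_le_of_ne inf_le_right h9)
            exact hAC (inf_eq_right.1 h8)
          have h5 : P h ∈ C ⊓ A := ⟨hP4 C hCF h hh, hP1 h⟩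
          rw [h4, Submodule.mem_bot] at h5
          rw [hT, h5, inner_zero_right, zero_smul]
          exact C.zero_mem
      have h4 := hM T hTF x hx.1
      rw [hT, hP3 x hx.2] at h4
      have h5 : (inner ℂ x x : ℂ) ≠ 0 := inner_self_ne_zero.2 hx0
      exact hyM ((Submodule.smul_mem_iff M h5).1 h4)
  have := key _ ⊤ hF.top_mem rfl
  rwa [inf_top_eq] at this

end Fin

section Iso

variable {H : Type u} [NormedAddCommGroup H] [InnerProductSpace ℂ H]
variable {K : Type v} [NormedAddCommGroup K] [InnerProductSpace ℂ K]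

/-- a lattice isomorphism is an order isomorphism -/
lemma orderIso_of_latticeIso (F : Set (Submodule ℂ H)) (G : Set (Submodule ℂ K))
    (hF : ∀ A ∈ F, ∀ B ∈ F, A ⊓ B ∈ F) (h : LatticeIsomorphic F G) : Nonempty (F ≃o G) := by
  obtain ⟨f, hf1, -⟩ := h
  refine ⟨⟨f, ?_⟩⟩
  intro A B
  have h1 := hf1 A B ⟨_, hF A A.2 B B.2⟩ rfl
  constructor
  · intro h
    have h' : (f A : Submodule ℂ K) ≤ f B := h
    rw [inf_eq_left.2 h'] at h1
    have h2 := f.injective (Subtype.ext h1)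
    have h3 : (A : Submodule ℂ H) ⊓ B = A := congrArg Subtype.val h2
    exact inf_eq_left.1 h3
  · intro h
    have h' : (A : Submodule ℂ H) ≤ B := h
    have h2 : (⟨_, hF A A.2 B B.2⟩ : F) = A := Subtype.ext (inf_eq_left.2 h')
    rw [h2] at h1
    change (f A : Submodule ℂ K) ≤ f B
    rw [h1]
    exact inf_le_right

lemma latticeIso_refl (F : Set (Submodule ℂ H)) : LatticeIsomorphic F F :=
  ⟨Equiv.refl _, fun _ _ _ h => h, fun _ _ _ h => h⟩

/-- The principal ideal of a member of an algebra. -/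
lemma iso_ideal {B : Type w} [CompleteBooleanAlgebra B] (F : Set (Submodule ℂ H)) (θ : B ≃o F)
    (M : Submodule ℂ H) (hM : M ∈ F) :
    Nonempty (Set.Iic (θ.symm ⟨M, hM⟩) ≃o ({N | N ∈ F ∧ N ≤ M} : Set (Submodule ℂ H))) := by
  have hle : ∀ b : B, b ≤ θ.symm ⟨M, hM⟩ ↔ (θ b : Submodule ℂ H) ≤ M := by
    intro b
    rw [← θ.le_iff_le, θ.apply_symm_apply]
    rfl
  refine ⟨⟨Equiv.ofBijective (fun z => ⟨(θ z.1 : Submodule ℂ H), (θ z.1).2, (hle _).1 z.2⟩)
    ⟨?_, ?_⟩, ?_⟩⟩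
  · intro z z' h
    simp only [Subtype.mk.injEq] at h
    exact Subtype.ext (θ.injective (Subtype.ext h))
  · rintro ⟨N, hN, hNM⟩
    refine ⟨⟨θ.symm ⟨N, hN⟩, ?_⟩, ?_⟩
    · rw [Set.mem_Iic, hle, θ.apply_symm_apply]
      exact hNM
    · apply Subtype.ext
      change ((θ (θ.symm ⟨N, hN⟩) : F) : Submodule ℂ H) = N
      rw [θ.apply_symm_apply]
  · intro z z'
    exact θ.le_iff_le (x := z.1) (y := z'.1)

end Iso

end Y280.CB
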