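import Mathlib
import Pool.Agent.Results.MP_44afb3_an.CohenAlgebra

/-!
# Realisation of complete Boolean algebras by coordinate subspaces
-/

set_option autoImplicit false

namespace Y280.CB

open Filter Topology
open Pool.Agent.Results.MP_44afb3_an.CohenAlgebra

universe u v w

section Coord

variable {S : Type w} {H : Type v} [NormedAddCommGroup H] [InnerProductSpace ℂ H]

/-- Coordinate subspaces of a Hilbert basis. -/
noncomputable def CV (β : HilbertBasis S ℂ H) (A : Set S) : Submodule ℂ H where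
  carrier := {x | ∀ n, n ∉ A → β.repr x n = 0}
  add_mem' := by
    intro x y hx hy n hn
    rw [map_add, lp.coeFn_add, Pi.add_apply, hx n hn, hy n hn, add_zero]
  zero_mem' := by
    intro n _
    rw [map_zero]
    rfl
  smul_mem' := by
    intro c x hx n hn
    rw [map_smul, lp.coeFn_smul, Pi.smul_apply, hx n hn, smul_zero]

lemma mem_CV (β : HilbertBasis S ℂ H) (A : Set S) (x : H) :
    x ∈ CV β A ↔ ∀ n, n ∉ A → β.repr x n = 0 := Iff.rfl

lemma CV_closed (β : HilbertBasis S ℂ H) (A : Set S) : IsClosed (CV β A : Set H) := by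
  have : (CV β A : Set H) = ⋂ n, ⋂ (_ : n ∉ A), {x : H | inner ℂ (β n) x = (0 : ℂ)} := by
    ext x
    simp only [SetLike.mem_coe, mem_CV, Set.mem_iInter, Set.mem_ofPred_eq,
      HilbertBasis.repr_apply_apply]
  rw [this]
  apply isClosed_iInter
  intro n
  apply isClosed_iInter
  intro _
  exact isClosed_eq (continuous_const.inner continuous_id) continuous_const

lemma CV_inf (β : HilbertBasis S ℂ H) (A B : Set S) : CV β A ⊓ CV β B = CV β (A ∩ B) := by
  ext x
  rw [Submodule.mem_inf, mem_CV, mem_CV, mem_CV]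
  constructor
  · rintro ⟨h1, h2⟩ n hn
    by_cases hA : n ∈ A
    · exact h2 n fun hB => hn ⟨hA, hB⟩
    · exact h1 n hA
  · intro h
    exact ⟨fun n hn => h n fun h' => hn h'.1, fun n hn => h n fun h' => hn h'.2⟩

lemma basis_mem_CV (β : HilbertBasis S ℂ H) (A : Set S) (n : S) : β n ∈ CV β A ↔ n ∈ A := by
  classical
  rw [mem_CV]
  constructor
  · intro h
    by_contra hn
    have h1 := h n hn
    rw [HilbertBasis.repr_self, lp.single_apply_self] at h1
    exact one_ne_zero h1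
  · intro h m hm
    rw [HilbertBasis.repr_self, lp.single_apply_ne]
    rintro rfl
    exact hm h

lemma CV_sup (β : HilbertBasis S ℂ H) (A B : Set S) :
    (CV β A ⊔ CV β B).topologicalClosure = CV β (A ∪ B) := by
  apply le_antisymm
  · apply Submodule.topologicalClosure_minimal _ _ (CV_closed β _)
    apply sup_le
    · intro x hx n hn
      exact hx n fun h => hn (Or.inl h)
    · intro x hx n hn
      exact hx n fun h => hn (Or.inr h)
  · intro x hx
    have h1 : HasSum (fun n => β.repr x n • β n) x := β.hasSum_repr x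
    refine mem_closure_of_tendsto h1 (Eventually.of_forall fun s => ?_)
    refine Submodule.sum_mem _ fun n _ => ?_
    by_cases hA : n ∈ A
    · exact Submodule.mem_sup_left ((CV β A).smul_mem _ ((basis_mem_CV β A n).2 hA))
    · by_cases hB : n ∈ B
      · exact Submodule.mem_sup_right ((CV β B).smul_mem _ ((basis_mem_CV β B n).2 hB))
      · rw [hx n fun h => h.elim hA hB, zero_smul]
        exact Submodule.zero_mem _

lemma CV_le_iff (β : HilbertBasis S ℂ H) (A B : Set S) : CV β A ≤ CV β B ↔ A ⊆ B := by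
  constructor
  · intro h n hn
    exact (basis_mem_CV β B n).1 (h ((basis_mem_CV β A n).2 hn))
  · intro h x hx n hn
    exact hx n fun h' => hn (h h')

lemma CV_empty (β : HilbertBasis S ℂ H) : CV β ∅ = ⊥ := by
  rw [eq_bot_iff]
  intro x hx
  rw [Submodule.mem_bot, ← β.repr.map_eq_zero_iff]
  ext n
  exact hx n (Set.notMem_empty n)

lemma CV_univ (β : HilbertBasis S ℂ H) : CV β Set.univ = ⊤ := by
  rw [eq_top_iff]
  intro x _ n hn
  exact absurd (Set.mem_univ n) hn

end Coord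

/-- A representation by subsets of `S` of a Boolean algebra whose nonzero elements are covered by
proper filters indexed by `S`. -/
lemma exists_rep_filters {B : Type u} [BooleanAlgebra B] {S : Type w} (J : S → Order.PFilter B)
    (hJ : ∀ s, ⊥ ∉ J s) (hJ2 : ∀ b : B, b ≠ ⊥ → ∃ s, b ∈ J s) :
    ∃ R : B → Set S, R ⊥ = ∅ ∧ R ⊤ = Set.univ ∧
    (∀ a b, R (a ⊓ b) = R a ∩ R b) ∧ (∀ a b, R (a ⊔ b) = R a ∪ R b) ∧
    (∀ a b, R a ⊆ R b → a ≤ b) := by
  have hP : ∀ s, ∃ I : Order.Ideal B, I.IsPrime ∧ ∀ b ∈ J s, b ∉ I := by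
    intro s
    have hdis : Disjoint ((J s : Order.PFilter B) : Set B) ((⊥ : Order.Ideal B) : Set B) := by
      rw [Set.disjoint_left]
      intro a ha1 ha2
      have h2 : a = ⊥ := le_bot_iff.1 (Order.Ideal.mem_principal.1 ha2)
      rw [h2] at ha1
      exact hJ s ha1
    obtain ⟨I, hI, -, hI2⟩ := DistribLattice.prime_ideal_of_disjoint_filter_ideal hdis
    exact ⟨I, hI, fun b hb hb2 => Set.disjoint_left.1 hI2 hb hb2⟩
  choose I hI hId using hP
  have hinf : ∀ n a b, a ⊓ b ∈ I n ↔ a ∈ I n ∨ b ∈ I n := by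
    intro n a b
    constructor
    · exact (hI n).mem_or_mem
    · rintro (h | h)
      · exact (I n).lower inf_le_left h
      · exact (I n).lower inf_le_right h
  have hsup : ∀ n a b, a ⊔ b ∈ I n ↔ a ∈ I n ∧ b ∈ I n := fun n a b => Order.Ideal.sup_mem_iff
  have htop : ∀ n, (⊤ : B) ∉ I n := fun n => (hI n).toIsProper.top_notMem
  have hbot : ∀ n, (⊥ : B) ∈ I n := fun n => Order.Ideal.bot_mem _
  refine ⟨fun b => {n | b ∉ I n}, ?_, ?_, ?_, ?_, ?_⟩
  · ext n
    simp
  · ext n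
    simp [htop n]
  · intro a b
    ext n
    simp [hinf n a b]
  · intro a b
    ext n
    simp only [Set.mem_ofPred_eq, hsup n a b, Set.mem_union]
    tauto
  · intro a b hab
    by_contra hcon
    have h1 : a ⊓ bᶜ ≠ ⊥ := by
      intro h
      apply hcon
      rwa [← sdiff_eq, sdiff_eq_bot_iff] at h
    obtain ⟨n, hn⟩ := hJ2 _ h1
    have h2 : a ⊓ bᶜ ∉ I n := fun h => hId n _ hn h
    rw [hinf] at h2
    push Not at h2
    have h3 : b ∉ I n := hab h2.1
    rcases (hI n).mem_or_compl_mem (x := b) with h | h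
    · exact h3 h
    · exact h2.2 h

/-- Realisation of a complete Boolean algebra by coordinate subspaces. -/
theorem realise {B : Type u} [CompleteBooleanAlgebra B] {S : Type w} (J : S → Order.PFilter B)
    (hJ : ∀ s, ⊥ ∉ J s) (hJ2 : ∀ b : B, b ≠ ⊥ → ∃ s, b ∈ J s) {H : Type v}
    [NormedAddCommGroup H] [InnerProductSpace ℂ H] (β : HilbertBasis S ℂ H) :
    ∃ F : Set (Submodule ℂ H), IsBooleanAlgebraOfSubspaces F ∧ IsCompleteFamily F ∧
      Nonempty (B ≃o F) := by
  obtain ⟨R, hRbot, hRtop, hRinf, hRsup, hRle⟩ := exists_rep_filters J hJ hJ2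
  have hRmono : ∀ a b, a ≤ b → R a ⊆ R b := by
    intro a b hab
    have : R a = R a ∩ R b := by rw [← hRinf, inf_eq_left.2 hab]
    rw [this]
    exact Set.inter_subset_right
  let W : B → Submodule ℂ H := fun b => CV β (R b)
  have hWle : ∀ a b, W a ≤ W b ↔ a ≤ b := fun a b =>
    ⟨fun h => hRle _ _ ((CV_le_iff β _ _).1 h), fun h => (CV_le_iff β _ _).2 (hRmono _ _ h)⟩
  have hWinf : ∀ a b, W a ⊓ W b = W (a ⊓ b) := by
    intro a b
    change CV β (R a) ⊓ CV β (R b) = CV β (R (a ⊓ b))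
    rw [CV_inf, hRinf]
  have hWsup : ∀ a b, (W a ⊔ W b).topologicalClosure = W (a ⊔ b) := by
    intro a b
    change (CV β (R a) ⊔ CV β (R b)).topologicalClosure = CV β (R (a ⊔ b))
    rw [CV_sup, hRsup]
  have hWbot : W ⊥ = ⊥ := by
    change CV β (R ⊥) = ⊥
    rw [hRbot, CV_empty]
  have hWtop : W ⊤ = ⊤ := by
    change CV β (R ⊤) = ⊤
    rw [hRtop, CV_univ]
  let F : Set (Submodule ℂ H) := {M | ∃ b, M = W b}
  refine ⟨F, ?_, ?_, ?_⟩
  · constructor
    · rintro _ ⟨b, rfl⟩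
      exact CV_closed β _
    · exact ⟨⊥, hWbot.symm⟩
    · exact ⟨⊤, hWtop.symm⟩
    · rintro _ ⟨a, rfl⟩ _ ⟨b, rfl⟩
      exact ⟨a ⊓ b, hWinf a b⟩
    · rintro _ ⟨a, rfl⟩ _ ⟨b, rfl⟩
      exact ⟨a ⊔ b, hWsup a b⟩
    · rintro _ ⟨a, rfl⟩ _ ⟨b, rfl⟩ _ ⟨c, rfl⟩
      rw [hWsup, hWinf, hWinf, hWinf, hWsup, inf_sup_left]
    · rintro _ ⟨a, rfl⟩
      refine ⟨W aᶜ, ⟨aᶜ, rfl⟩, ?_, ?_⟩
      · rw [hWinf, inf_compl_eq_bot, hWbot]
      · rw [hWsup, sup_compl_eq_top, hWtop]
  · intro T hT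
    refine ⟨W (sSup {b | W b ∈ T}), ⟨_, rfl⟩, ?_, ?_⟩
    · intro M hM
      obtain ⟨b, rfl⟩ := hT hM
      exact (hWle _ _).2 (le_sSup hM)
    · rintro _ ⟨b, rfl⟩ hb
      exact (hWle _ _).2 (sSup_le fun a ha => (hWle _ _).1 (hb _ ha))
  · refine ⟨⟨Equiv.ofBijective (fun b => (⟨W b, b, rfl⟩ : F)) ⟨?_, ?_⟩, ?_⟩⟩
    · intro a b hab
      have h1 : W a = W b := congrArg Subtype.val hab
      exact le_antisymm ((hWle _ _).1 h1.le) ((hWle _ _).1 h1.ge)
    · rintro ⟨_, b, rfl⟩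
      exact ⟨b, rfl⟩
    · intro a b
      exact hWle a b

/-! ## The regular open algebra of the tree of finite sequences -/

/-- A complete Boolean algebra from suprema. -/
noncomputable def mkCBA (B : Type u) [inst : BooleanAlgebra B] (h : ∀ s : Set B, ∃ c, IsLUB s c) :
    CompleteBooleanAlgebra B :=
  { inst with
    sSup := fun s => (h s).choose
    isLUB_sSup := fun s => (h s).choose_spec
    sInf := fun s => ((h (compl '' s)).choose)ᶜ
    isGLB_sInf := by
      intro s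
      have hs := (h (compl '' s)).choose_spec
      constructor
      · intro a ha
        exact compl_le_of_compl_le (hs.1 ⟨a, ha, rfl⟩)
      · intro a ha
        apply le_compl_of_le_compl
        apply hs.2
        rintro _ ⟨c, hc, rfl⟩
        exact compl_le_compl (ha hc) }

/-- finite sequences, ordered by extension -/
structure Tree (κ : Type w) where
  /-- the sequence -/
  l : List κ

instance (κ : Type w) : Preorder (Tree κ) where
  le p q := q.l <+: p.l
  le_refl p := List.prefix_refl _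
  le_trans _ _ _ h1 h2 := h2.trans h1

lemma tree_le {κ : Type w} (p q : Tree κ) : p ≤ q ↔ q.l <+: p.l := Iff.rfl

/-- the regular open algebra of the tree of finite sequences -/
abbrev TA (κ : Type w) : Type w := Heyting.Regular (LowerSet (Tree κ))

section TA

variable {κ : Type w}

lemma mem_compl' (U : LowerSet (Tree κ)) (p : Tree κ) : p ∈ Uᶜ ↔ ∀ q ≤ p, q ∉ U := by
  have h1 : p ∈ Uᶜ ↔ LowerSet.Iic p ≤ Uᶜ := by
    constructor
    · intro h q hq
      exact Uᶜ.lower hq h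
    · intro h
      exact h (le_refl p)
  rw [h1, le_compl_iff_disjoint_right, disjoint_iff_inf_le]
  constructor
  · intro h q hq hqU
    exact h ⟨hq, hqU⟩
  · rintro h q ⟨hq, hqU⟩
    exact (h q hq hqU).elim

lemma mem_toRegular' (U : LowerSet (Tree κ)) (p : Tree κ) :
    p ∈ (Heyting.Regular.toRegular U : LowerSet (Tree κ)) ↔ ∀ q ≤ p, ∃ r ≤ q, r ∈ U := by
  rw [Heyting.Regular.coe_toRegular, mem_compl']
  constructor
  · intro h q hq
    have := h q hq
    rw [mem_compl'] at this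
    push Not at this
    exact this
  · intro h q hq
    rw [mem_compl']
    push Not
    exact h q hq

lemma TA_le_iff (U : LowerSet (Tree κ)) (b : TA κ) :
    Heyting.Regular.toRegular U ≤ b ↔ U ≤ (b : LowerSet (Tree κ)) :=
  Heyting.Regular.gi.gc U b

lemma TA_ne_bot (b : TA κ) : b ≠ ⊥ ↔ ∃ p, p ∈ (b : LowerSet (Tree κ)) := by
  constructor
  · intro h
    by_contra hcon
    push Not at hcon
    apply h
    apply Heyting.Regular.coe_injective
    ext x
    constructor
    · intro hx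
      exact absurd hx (hcon x)
    · intro hx
      exact absurd hx (by simp)
  · rintro ⟨x, hx⟩ rfl
    simp at hx

lemma TA_lub (s : Set (TA κ)) : ∃ c : TA κ, IsLUB s c := by
  refine ⟨Heyting.Regular.toRegular (sSup ((fun b : TA κ => (b : LowerSet (Tree κ))) '' s)),
    ?_, ?_⟩
  · intro b hb
    have h1 : (b : LowerSet (Tree κ)) ≤ sSup ((fun b : TA κ => (b : LowerSet (Tree κ))) '' s) :=
      le_sSup ⟨b, hb, rfl⟩
    have h2 := Heyting.Regular.toRegular.monotone h1
    rwa [Heyting.Regular.toRegular_coe] at h2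
  · intro c hc
    rw [TA_le_iff]
    apply sSup_le
    rintro _ ⟨b, hb, rfl⟩
    exact hc hb

noncomputable instance : CompleteBooleanAlgebra (TA κ) := mkCBA (TA κ) TA_lub

/-- the regular open set of the extensions of a sequence -/
noncomputable def cyl (p : Tree κ) : TA κ := Heyting.Regular.toRegular (LowerSet.Iic p)

lemma mem_cyl (p : Tree κ) : p ∈ (cyl p : LowerSet (Tree κ)) :=
  (mem_toRegular' _ _).2 fun q hq => ⟨q, le_refl q, hq⟩

lemma cyl_ne (p : Tree κ) : cyl p ≠ ⊥ := (TA_ne_bot _).2 ⟨p, mem_cyl p⟩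

lemma cyl_dense (b : TA κ) (hb : b ≠ ⊥) : ∃ p, cyl p ≤ b := by
  obtain ⟨p, hp⟩ := (TA_ne_bot b).1 hb
  refine ⟨p, (TA_le_iff _ _).2 fun q hq => (b : LowerSet (Tree κ)).lower hq hp⟩

lemma cyl_disjoint (a b : κ) (hab : a ≠ b) : Disjoint (cyl (⟨[a]⟩ : Tree κ)) (cyl ⟨[b]⟩) := by
  rw [disjoint_iff_inf_le]
  by_contra hcon
  have h0 : cyl (⟨[a]⟩ : Tree κ) ⊓ cyl ⟨[b]⟩ ≠ ⊥ := fun h => hcon h.le
  obtain ⟨p, hp⟩ := (TA_ne_bot _).1 h0
  rw [Heyting.Regular.coe_inf] at hp
  obtain ⟨h1, h2⟩ := hp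
  obtain ⟨q, hq, hqa⟩ := (mem_toRegular' _ _).1 h1 p le_rfl
  obtain ⟨r, hr, hrb⟩ := (mem_toRegular' _ _).1 h2 q hq
  have h3 : [a] <+: r.l := (tree_le _ _).1 (hr.trans hqa)
  have h4 : [b] <+: r.l := (tree_le _ _).1 hrb
  obtain ⟨t, ht⟩ := h3
  obtain ⟨t', ht'⟩ := h4
  rw [← ht] at ht'
  simp only [List.cons_append, List.nil_append, List.cons.injEq] at ht'
  exact hab ht'.1.symm

/-- the sequences whose `n`-th term has a large label -/
def lab (π : κ → ℕ) (n k : ℕ) : LowerSet (Tree κ) where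
  carrier := {p | ∃ a, p.l[n]? = some a ∧ k ≤ π a}
  lower' := by
    rintro p q hq ⟨a, ha, hk⟩
    obtain ⟨t, ht⟩ := (tree_le _ _).1 hq
    refine ⟨a, ?_, hk⟩
    rw [← ht]
    have hn : n < p.l.length := by
      by_contra h
      rw [List.getElem?_eq_none (by omega)] at ha
      exact absurd ha (by simp)
    rw [List.getElem?_append_left hn]
    exact ha

/-- the matrix which refutes weak distributivity -/
noncomputable def mat (π : κ → ℕ) (n k : ℕ) : TA κ := Heyting.Regular.toRegular (lab π n k)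

lemma mat_anti (π : κ → ℕ) (n : ℕ) : Antitone (mat π n) := by
  intro i j hij
  apply Heyting.Regular.toRegular.monotone
  rintro p ⟨a, ha, hk⟩
  exact ⟨a, ha, hij.trans hk⟩

lemma mat_inf (π : κ → ℕ) (hπ : Function.Surjective π) (n : ℕ) : ⨅ k, mat π n k = ⊥ := by
  by_contra hcon
  obtain ⟨p, hp⟩ := (TA_ne_bot _).1 hcon
  obtain ⟨a₀, -⟩ := hπ 0
  let q : Tree κ := ⟨p.l ++ List.replicate (n + 1) a₀⟩
  have hqp : q ≤ p := (tree_le _ _).2 (List.prefix_append _ _)
  have hn : n < q.l.length := by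
    change n < (p.l ++ List.replicate (n + 1) a₀).length
    rw [List.length_append, List.length_replicate]
    omega
  have h1 : ⨅ k, mat π n k ≤ mat π n (π (q.l[n]) + 1) := iInf_le _ _
  have h2 : q ∈ (mat π n (π (q.l[n]) + 1) : LowerSet (Tree κ)) :=
    (Heyting.Regular.coe_le_coe.2 h1) ((⨅ k, mat π n k : TA κ).val.lower hqp hp)
  obtain ⟨r, hr, a, ha, hk⟩ := (mem_toRegular' _ _).1 h2 q le_rfl
  obtain ⟨t, ht⟩ := (tree_le _ _).1 hr
  rw [← ht, List.getElem?_append_left hn, List.getElem?_eq_getElem hn, Option.some.injEq] at ha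
  rw [← ha] at hk
  omega

lemma mat_sup (π : κ → ℕ) (hπ : Function.Surjective π) (f : ℕ → ℕ) :
    ⨆ n, mat π n (f n) = ⊤ := by
  rw [← compl_eq_bot]
  by_contra hcon
  obtain ⟨p, hp⟩ := (TA_ne_bot _).1 hcon
  obtain ⟨a, ha⟩ := hπ (f p.l.length)
  let q : Tree κ := ⟨p.l ++ [a]⟩
  have hqp : q ≤ p := (tree_le _ _).2 (List.prefix_append _ _)
  have h1 : q ∈ lab π p.l.length (f p.l.length) := by
    refine ⟨a, ?_, ha.ge⟩
    change (p.l ++ [a])[p.l.length]? = some a
    simp
  have h2 : q ∈ (mat π p.l.length (f p.l.length) : LowerSet (Tree κ)) :=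
    (mem_toRegular' _ _).2 fun r hr =>
      ⟨r, le_refl r, (lab π p.l.length (f p.l.length)).lower hr h1⟩
  have h3 : mat π p.l.length (f p.l.length) ≤ ⨆ n, mat π n (f n) :=
    le_iSup (fun n => mat π n (f n)) _
  have h4 : q ∈ ((⨆ n, mat π n (f n) : TA κ) : LowerSet (Tree κ)) :=
    (Heyting.Regular.coe_le_coe.2 h3) h2
  have h5 : q ∈ (((⨆ n, mat π n (f n))ᶜ : TA κ) : LowerSet (Tree κ)) :=
    ((⨆ n, mat π n (f n))ᶜ : TA κ).val.lower hqp hp
  have h6 : ((⨆ n, mat π n (f n)) ⊓ (⨆ n, mat π n (f n))ᶜ : TA κ) = ⊥ := inf_compl_eq_bot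
  have h7 : q ∈ (((⨆ n, mat π n (f n)) ⊓ (⨆ n, mat π n (f n))ᶜ : TA κ) : LowerSet (Tree κ)) := by
    rw [Heyting.Regular.coe_inf]
    exact ⟨h4, h5⟩
  exact ((TA_ne_bot _).2 ⟨q, h7⟩) h6

end TA

end Y280.CB
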